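import Mathlib

/-!
# Transfer recursion for words without three consecutive `false`
-/

set_option autoImplicit false
set_option linter.unusedSimpArgs false

namespace Q107.DomTransfer

open Finset SimpleGraph

/-- no three consecutive `false` -/
def ok3 : List Bool → Bool
  | a :: b :: c :: l => (a || b || c) && ok3 (b :: c :: l)
  | _ => true

lemma ok3_cons (a b c : Bool) (l : List Bool) :
    ok3 (a :: b :: c :: l) = ((a || b || c) && ok3 (b :: c :: l)) := rfl

lemma ok3_iff (L : List Bool) : ok3 L = true ↔
    ∀ i, L.getD i true = true ∨ L.getD (i + 1) true = true ∨ L.getD (i + 2) true = true := by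
  induction L with
  | nil => simp [ok3]
  | cons a L ih =>
    match L, ih with
    | [], _ =>
      simp only [ok3, true_iff]
      intro i
      right; right
      rw [List.getD_eq_default]
      simp
    | [b], _ =>
      simp only [ok3, true_iff]
      intro i
      right; right
      rw [List.getD_eq_default]
      simp
    | b :: c :: l, ih =>
      rw [ok3_cons, Bool.and_eq_true, ih]
      constructor
      · rintro ⟨h1, h2⟩ i
        cases i with
        | zero =>
          simpa [or_assoc] using h1
        | succ i =>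
          have := h2 i
          simpa using this
      · intro h
        refine ⟨?_, fun i => ?_⟩
        · simpa [or_assoc] using h 0
        · simpa using h (i + 1)

lemma ok3_true (a : Bool) (L : List Bool) : ok3 (a :: true :: L) = ok3 (true :: true :: L) := by
  cases L with
  | nil => rfl
  | cons c l => simp [ok3_cons]

/-- the weight of a letter -/
def wt (x : ℝ) (b : Bool) : ℝ := if b then x else 1

/-- the weighted number of words -/
noncomputable def W (T : List Bool) (m : ℕ) (a b : Bool) (x : ℝ) : ℝ :=
  ∑ s : Fin m → Bool, if ok3 (a :: b :: (List.ofFn s ++ T)) then ∏ i, wt x (s i) else 0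

lemma sum_cons {m : ℕ} (f : (Fin (m + 1) → Bool) → ℝ) :
    ∑ s, f s = ∑ c : Bool, ∑ t : Fin m → Bool, f (Fin.cons c t) := by
  rw [← Fintype.sum_prod_type']
  symm
  exact Fintype.sum_equiv (Fin.consEquiv (fun _ : Fin (m + 1) => Bool)) _ _ (fun _ => rfl)

lemma ofFn_cons' {m : ℕ} (c : Bool) (t : Fin m → Bool) :
    List.ofFn (Fin.cons c t : Fin (m + 1) → Bool) = c :: List.ofFn t := by
  rw [List.ofFn_succ]
  simp

lemma W_zero (T : List Bool) (a b : Bool) (x : ℝ) :
    W T 0 a b x = if ok3 (a :: b :: T) then 1 else 0 := by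
  unfold W
  simp

lemma W_succ (T : List Bool) (m : ℕ) (a b : Bool) (x : ℝ) :
    W T (m + 1) a b x = x * W T m b true x + if a || b then W T m b false x else 0 := by
  unfold W
  rw [sum_cons]
  simp only [Fintype.univ_bool, Finset.mem_singleton, Bool.true_eq_false, not_false_eq_true,
    Finset.sum_insert, Finset.sum_singleton]
  congr 1
  · rw [Finset.mul_sum]
    apply Finset.sum_congr rfl
    intro t _
    rw [ofFn_cons', Fin.prod_univ_succ]
    simp only [Fin.cons_zero, Fin.cons_succ, List.cons_append, ok3_cons, wt]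
    simp
  · by_cases h : a || b
    · rw [if_pos h]
      apply Finset.sum_congr rfl
      intro t _
      rw [ofFn_cons', Fin.prod_univ_succ]
      simp only [Fin.cons_zero, Fin.cons_succ, List.cons_append, ok3_cons, wt, h]
      simp
    · rw [if_neg h]
      apply Finset.sum_eq_zero
      intro t _
      rw [ofFn_cons']
      simp only [Bool.or_eq_true, not_or, Bool.not_eq_true] at h
      simp only [List.cons_append, ok3_cons, h.1, h.2]
      simp

lemma W_true (T : List Bool) (m : ℕ) (a : Bool) (x : ℝ) : W T m a true x = W T m true true x := by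
  unfold W
  apply Finset.sum_congr rfl
  intro s _
  rw [ok3_true]

lemma W_y (T : List Bool) (m : ℕ) (x : ℝ) :
    W T (m + 1) true true x = x * W T m true true x + W T m true false x := by
  rw [W_succ]; simp

lemma W_z (T : List Bool) (m : ℕ) (x : ℝ) :
    W T (m + 1) true false x = x * W T m true true x + W T m false false x := by
  rw [W_succ, W_true T m false]; simp

lemma W_u (T : List Bool) (m : ℕ) (x : ℝ) :
    W T (m + 1) false false x = x * W T m true true x := by
  rw [W_succ, W_true T m false]; simp

lemma W_rec (T : List Bool) (m : ℕ) (a b : Bool) (x : ℝ) :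
    W T (m + 3) a b x = x * (W T (m + 2) a b x + W T (m + 1) a b x + W T m a b x) := by
  cases b
  · cases a
    · simp only [W_u, W_y, W_z]; ring
    · simp only [W_u, W_y, W_z]; ring
  · rw [W_true T _ a, W_true T _ a, W_true T _ a, W_true T _ a]
    simp only [W_u, W_y, W_z]; ring

/-! ### the zero-free interval -/

/-- the alternating sequence -/
lemma step {t p q r : ℝ} (ht1 : 1.89 ≤ t) (ht2 : t ≤ 1.91) (hp : 0 < p)
    (h1 : 1.3 * p < q) (h2 : q < 1.65 * p) (h3 : 1.3 * q < r) (h4 : r < 1.65 * q) :
    1.3 * r < t * (r - q + p) ∧ t * (r - q + p) < 1.65 * r := by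
  have hq : 0 < q := by linarith
  have hr : 0 < r := by linarith
  have e1 : 0.69 * r < r - q + p := by nlinarith
  have e2 : r - q + p < 0.8602 * r := by nlinarith
  constructor
  · nlinarith
  · nlinarith

lemma gap (a : ℕ → ℝ → ℝ) (hrec : ∀ m x, a (m + 3) x = x * (a (m + 2) x + a (m + 1) x + a m x))
    (h0 : Continuous (a 0)) (h1 : Continuous (a 1)) (h2 : Continuous (a 2)) (k N : ℕ)
    (hsmall : ∀ n, k ≤ n → n < N → a n (-1.9) ≠ 0)
    (e0 : 0 < (-1) ^ N * a N (-1.9))
    (e1 : 1.3 * ((-1) ^ N * a N (-1.9)) < (-1) ^ (N + 1) * a (N + 1) (-1.9))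
    (e2 : (-1) ^ (N + 1) * a (N + 1) (-1.9) < 1.65 * ((-1) ^ N * a N (-1.9)))
    (e3 : 1.3 * ((-1) ^ (N + 1) * a (N + 1) (-1.9)) < (-1) ^ (N + 2) * a (N + 2) (-1.9))
    (e4 : (-1) ^ (N + 2) * a (N + 2) (-1.9) < 1.65 * ((-1) ^ (N + 1) * a (N + 1) (-1.9))) :
    ∀ᶠ x in nhds (-1.9 : ℝ), ∀ n, k ≤ n → a n x ≠ 0 := by
  have hcont : ∀ n, Continuous (a n) := by
    have h : ∀ n, Continuous (a n) ∧ Continuous (a (n + 1)) ∧ Continuous (a (n + 2)) := by
      intro n
      induction n with
      | zero => exact ⟨h0, h1, h2⟩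
      | succ n ih =>
        refine ⟨ih.2.1, ih.2.2, ?_⟩
        have : a (n + 1 + 2) = fun x => x * (a (n + 2) x + a (n + 1) x + a n x) :=
          funext fun x => hrec n x
        rw [this]
        exact continuous_id.mul ((ih.2.2.add ih.2.1).add ih.1)
    exact fun n => (h n).1
  have hev1 : ∀ᶠ x in nhds (-1.9 : ℝ), ∀ n ∈ Finset.range N, k ≤ n → a n x ≠ 0 := by
    rw [Filter.eventually_all_finset]
    intro n hn
    by_cases hk : k ≤ n
    · have := (hcont n).continuousAt.eventually_ne (hsmall n hk (Finset.mem_range.1 hn))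
      filter_upwards [this] with x hx _ using hx
    · exact Filter.Eventually.of_forall fun x h => absurd h hk
  have c0 : Continuous fun x => (-1 : ℝ) ^ N * a N x := continuous_const.mul (hcont _)
  have c1 : Continuous fun x => (-1 : ℝ) ^ (N + 1) * a (N + 1) x :=
    continuous_const.mul (hcont _)
  have c2 : Continuous fun x => (-1 : ℝ) ^ (N + 2) * a (N + 2) x :=
    continuous_const.mul (hcont _)
  have f0 := continuous_const.continuousAt.eventually_lt c0.continuousAt e0
  have f1 := (continuous_const.mul c0).continuousAt.eventually_lt c1.continuousAt e1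
  have f2 := c1.continuousAt.eventually_lt (continuous_const.mul c0).continuousAt e2
  have f3 := (continuous_const.mul c1).continuousAt.eventually_lt c2.continuousAt e3
  have f4 := c2.continuousAt.eventually_lt (continuous_const.mul c1).continuousAt e4
  have f5 : ∀ᶠ x in nhds (-1.9 : ℝ), -1.91 < x := eventually_gt_nhds (by norm_num)
  have f6 : ∀ᶠ x in nhds (-1.9 : ℝ), x < -1.89 := eventually_lt_nhds (by norm_num)
  filter_upwards [hev1, f0, f1, f2, f3, f4, f5, f6] with x g g0 g1 g2 g3 g4 g5 g6
  have key : ∀ n, 0 < (-1) ^ (N + n) * a (N + n) x ∧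
      1.3 * ((-1) ^ (N + n) * a (N + n) x) < (-1) ^ (N + n + 1) * a (N + n + 1) x ∧
      (-1) ^ (N + n + 1) * a (N + n + 1) x < 1.65 * ((-1) ^ (N + n) * a (N + n) x) ∧
      1.3 * ((-1) ^ (N + n + 1) * a (N + n + 1) x) < (-1) ^ (N + n + 2) * a (N + n + 2) x ∧
      (-1) ^ (N + n + 2) * a (N + n + 2) x <
        1.65 * ((-1) ^ (N + n + 1) * a (N + n + 1) x) := by
    intro n
    induction n with
    | zero => exact ⟨g0, g1, g2, g3, g4⟩
    | succ n ih =>
      obtain ⟨i0, i1, i2, i3, i4⟩ := ih
      have hs := step (t := -x) (by linarith) (by linarith) i0 i1 i2 i3 i4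
      have e : (-1) ^ (N + n + 3) * a (N + n + 3) x =
          -x * ((-1) ^ (N + n + 2) * a (N + n + 2) x - (-1) ^ (N + n + 1) * a (N + n + 1) x +
            (-1) ^ (N + n) * a (N + n) x) := by
        rw [hrec]
        ring
      have p1 : 0 < (-1) ^ (N + n + 1) * a (N + n + 1) x := by linarith
      have q1 : N + (n + 1) = N + n + 1 := by ring
      rw [q1]
      refine ⟨p1, i3, i4, ?_, ?_⟩
      · have := hs.1
        rw [← e] at this
        exact this
      · have := hs.2
        rw [← e] at this
        exact this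
  intro n hn
  rcases Nat.lt_or_ge n N with h | h
  · exact g n (Finset.mem_range.2 h) hn
  · obtain ⟨m, rfl⟩ := Nat.exists_eq_add_of_le h
    intro h0
    have := (key m).1
    rw [h0] at this
    simp at this

/-- paths -/
lemma gap_path : ∀ᶠ x in nhds (-1.9 : ℝ), ∀ n, 4 ≤ n → W [false] n true false x ≠ 0 := by
  have v0 : ∀ x, W [false] 0 true false x = 1 := by
    intro x; rw [W_zero]; simp [ok3]
  have v1 : ∀ x, W [false] 1 true false x = x := by
    intro x; rw [W_z, W_zero, W_zero]; simp [ok3]
  have v2 : ∀ x, W [false] 2 true false x = x ^ 2 + 2 * x := by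
    intro x; rw [W_z, W_y, W_u, W_zero, W_zero]; simp [ok3]; ring
  have hr : ∀ m, W [false] (m + 3) true false (-1.9) = (-1.9) * (W [false] (m + 2) true false (-1.9)
      + W [false] (m + 1) true false (-1.9) + W [false] m true false (-1.9)) :=
    fun m => W_rec [false] m true false (-1.9)
  have w0 : W [false] 0 true false (-1.9) = 1 := by rw [v0]
  have w1 : W [false] 1 true false (-1.9) = (-19) / 10 := by rw [v1]; norm_num
  have w2 : W [false] 2 true false (-1.9) = (-19) / 100 := by rw [v2]; norm_num
  have w3 : W [false] 3 true false (-1.9) = (2071) / 1000 := by rw [hr 0, w2, w1, w0]; norm_num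
  have w4 : W [false] 4 true false (-1.9) = (361) / 10000 := by rw [hr 1, w3, w2, w1]; norm_num
  have w5 : W [false] 5 true false (-1.9) = (-364249) / 100000 := by rw [hr 2, w4, w3, w2]; norm_num
  have w6 : W [false] 6 true false (-1.9) = (2917241) / 1000000 := by rw [hr 3, w5, w4, w3]; norm_num
  have w7 : W [false] 7 true false (-1.9) = (13093831) / 10000000 := by rw [hr 4, w6, w5, w4]; norm_num
  have w8 : W [false] 8 true false (-1.9) = (-110985479) / 100000000 := by rw [hr 5, w7, w6, w5]; norm_num
  have w9 : W [false] 9 true false (-1.9) = (-5921861689) / 1000000000 := by rw [hr 6, w8, w7, w6]; norm_num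
  have w10 : W [false] 10 true false (-1.9) = (108724334201) / 10000000000 := by rw [hr 7, w9, w8, w7]; norm_num
  have w11 : W [false] 11 true false (-1.9) = (-729736218809) / 100000000000 := by rw [hr 8, w10, w9, w8]; norm_num
  have w12 : W [false] 12 true false (-1.9) = (4458901868281) / 1000000000000 := by rw [hr 9, w11, w10, w9]; norm_num
  have w13 : W [false] 13 true false (-1.9) = (-152645488905529) / 10000000000000 := by rw [hr 10, w12, w11, w10]; norm_num
  have w14 : W [false] 14 true false (-1.9) = (3439571749968761) / 100000000000000 := by rw [hr 11, w13, w12, w11]; norm_num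
  have w15 : W [false] 15 true false (-1.9) = (-44821133907089849) / 1000000000000000 := by rw [hr 12, w14, w13, w12]; norm_num
  have w16 : W [false] 16 true false (-1.9) = (488109340661147641) / 10000000000000000 := by rw [hr 13, w15, w14, w13]; norm_num
  have w17 : W [false] 17 true false (-1.9) = (-7293248355155379769) / 100000000000000000 := by rw [hr 14, w16, w15, w14]; norm_num
  have w18 : W [false] 18 true false (-1.9) = (130991098445804876921) / 1000000000000000000 := by rw [hr 15, w17, w16, w15]; norm_num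
  have w19 : W [false] 19 true false (-1.9) = (-2030521430246951023289) / 10000000000000000000 := by rw [hr 16, w18, w17, w16]; norm_num
  have w20 : W [false] 20 true false (-1.9) = (27548770344784364388601) / 100000000000000000000 := by rw [hr 17, w19, w18, w17]; norm_num
  apply gap (fun n x => W [false] n true false x) (fun m x => W_rec [false] m true false x)
    (by simp only [v0]; fun_prop) (by simp only [v1]; fun_prop) (by simp only [v2]; fun_prop) 4 18
  · intro n h1 h2
    interval_cases n <;> simp only [w4, w5, w6, w7, w8, w9, w10, w11, w12, w13, w14, w15, w16, w17] <;> norm_num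
  · simp only [w18, w19, w20]; norm_num
  · simp only [w18, w19, w20]; norm_num
  · simp only [w18, w19, w20]; norm_num
  · simp only [w18, w19, w20]; norm_num
  · simp only [w18, w19, w20]; norm_num

/-- the polynomial of the cycle with `m + 2` vertices -/
noncomputable def Cy (m : ℕ) (x : ℝ) : ℝ :=
  ∑ u : Bool, ∑ v : Bool, wt x u * wt x v * W [u, v] m u v x

lemma Cy_rec (m : ℕ) (x : ℝ) : Cy (m + 3) x = x * (Cy (m + 2) x + Cy (m + 1) x + Cy m x) := by
  unfold Cy
  simp only [W_rec, Fintype.univ_bool, Finset.mem_singleton, Bool.true_eq_false,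
    not_false_eq_true, Finset.sum_insert, Finset.sum_singleton]
  ring

lemma gap_cycle : ∀ᶠ x in nhds (-1.9 : ℝ), ∀ m, 2 ≤ m → Cy m x ≠ 0 := by
  have v0 : ∀ x, Cy 0 x = x ^ 2 + 2 * x := by
    intro x; unfold Cy; simp [W_zero, ok3, wt]; ring
  have v1 : ∀ x, Cy 1 x = x ^ 3 + 3 * x ^ 2 + 3 * x := by
    intro x; unfold Cy; simp [W_succ, W_zero, ok3, wt]; ring
  have v2 : ∀ x, Cy 2 x = x ^ 4 + 4 * x ^ 3 + 6 * x ^ 2 := by
    intro x; unfold Cy; simp [W_succ, W_zero, ok3, wt]; ring
  have hr : ∀ m, Cy (m + 3) (-1.9) = (-1.9) * (Cy (m + 2) (-1.9) + Cy (m + 1) (-1.9) +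
      Cy m (-1.9)) := fun m => Cy_rec m (-1.9)
  have w0 : Cy 0 (-1.9) = (-19) / 100 := by rw [v0]; norm_num
  have w1 : Cy 1 (-1.9) = (-1729) / 1000 := by rw [v1]; norm_num
  have w2 : Cy 2 (-1.9) = (72561) / 10000 := by rw [v2]; norm_num
  have w3 : Cy 3 (-1.9) = (-1014049) / 100000 := by rw [hr 0, w2, w1, w0]; norm_num
  have w4 : Cy 4 (-1.9) = (8765441) / 1000000 := by rw [hr 1, w3, w2, w1]; norm_num
  have w5 : Cy 5 (-1.9) = (-111739969) / 10000000 := by rw [hr 2, w4, w3, w2]; norm_num
  have w6 : Cy 6 (-1.9) = (2384318721) / 100000000 := by rw [hr 3, w5, w4, w3]; norm_num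
  have w7 : Cy 7 (-1.9) = (-40725799489) / 1000000000 := by rw [hr 4, w6, w5, w4]; norm_num
  have w8 : Cy 8 (-1.9) = (533075574401) / 10000000000 := by rw [hr 5, w7, w6, w5]; norm_num
  have w9 : Cy 9 (-1.9) = (-6920739580609) / 100000000000 := by rw [hr 6, w8, w7, w6]; norm_num
  have w10 : Cy 10 (-1.9) = (107588711924481) / 1000000000000 := by rw [hr 7, w9, w8, w7]; norm_num
  have w11 : Cy 11 (-1.9) = (-1742088597611329) / 10000000000000 := by rw [hr 8, w10, w9, w8]; norm_num
  apply gap Cy Cy_rec
    (by rw [funext v0]; fun_prop) (by rw [funext v1]; fun_prop) (by rw [funext v2]; fun_prop) 2 9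
  · intro n h1 h2
    interval_cases n <;> simp only [w2, w3, w4, w5, w6, w7, w8] <;> norm_num
  · simp only [w9, w10, w11]; norm_num
  · simp only [w9, w10, w11]; norm_num
  · simp only [w9, w10, w11]; norm_num
  · simp only [w9, w10, w11]; norm_num
  · simp only [w9, w10, w11]; norm_num

end Q107.DomTransfer
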